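import Mathlib

namespace Pool.Agent.Results.MP_10f18b_co.NotSharp

open Finset
open Classical

/-- `S` is `k`-independent: the induced subgraph `G[S]` has maximum degree at most `k`. -/
def KIndep {n : ℕ} (G : SimpleGraph (Fin n)) (k : ℕ) (S : Finset (Fin n)) : Prop :=
  ∀ v ∈ S, (S.filter (fun w => G.Adj v w)).card ≤ k

/-- the `k`-independence number -/
noncomputable def alphaK {n : ℕ} (G : SimpleGraph (Fin n)) (k : ℕ) : ℕ :=
  sSup {m : ℕ | ∃ S : Finset (Fin n), KIndep G k S ∧ S.card = m}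

/-- the average degree -/
noncomputable def avgDeg {n : ℕ} (G : SimpleGraph (Fin n)) : ℝ :=
  (∑ v : Fin n, (G.degree v : ℝ)) / (n : ℝ)

/-- `f(k,d)`: infimum of `alpha_k(G)/n(G)` over graphs of average degree at most `d`. -/
noncomputable def fkd (k d : ℕ) : ℝ :=
  sInf {x : ℝ | ∃ n : ℕ, 1 ≤ n ∧ ∃ G : SimpleGraph (Fin n),
    avgDeg G ≤ (d : ℝ) ∧ x = (alphaK G k : ℝ) / (n : ℝ)}

section
variable {n : ℕ} (G : SimpleGraph (Fin n))

noncomputable def dS (S : Finset (Fin n)) (v : Fin n) : ℕ := (S.filter (fun w => G.Adj v w)).card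

lemma dS_erase (S : Finset (Fin n)) (x v : Fin n) (hx : x ∈ S) :
    dS G S v = dS G (S.erase x) v + (if G.Adj v x then 1 else 0) := by
  unfold dS
  rw [Finset.filter_erase]
  by_cases h : G.Adj v x
  · rw [if_pos h]
    have : x ∈ S.filter (fun w => G.Adj v w) := by simp [hx, h]
    rw [Finset.card_erase_add_one this]
  · rw [if_neg h]
    have : x ∉ S.filter (fun w => G.Adj v w) := by simp [h]
    rw [Finset.erase_eq_of_notMem this]; simp

lemma DS_erase (S : Finset (Fin n)) (x : Fin n) (hx : x ∈ S) :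
    ∑ v ∈ S, dS G S v = ∑ v ∈ S.erase x, dS G (S.erase x) v + 2 * dS G S x := by
  rw [← Finset.add_sum_erase S _ hx]
  have h1 : ∑ v ∈ S.erase x, dS G S v
      = ∑ v ∈ S.erase x, dS G (S.erase x) v + ∑ v ∈ S.erase x, (if G.Adj v x then 1 else 0) := by
    rw [← Finset.sum_add_distrib]
    exact Finset.sum_congr rfl (fun v _ => dS_erase G S x v hx)
  have h2 : ∑ v ∈ S.erase x, (if G.Adj v x then 1 else 0) = dS G S x := by
    rw [← Finset.card_filter]
    unfold dS
    congr 1
    ext w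
    simp only [Finset.mem_filter, Finset.mem_erase]
    constructor
    · rintro ⟨⟨_, h⟩, h'⟩; exact ⟨h, h'.symm⟩
    · rintro ⟨h, h'⟩; exact ⟨⟨h'.ne.symm, h⟩, h'.symm⟩
  rw [h1, h2]; ring

noncomputable def bad (S : Finset (Fin n)) : Finset (Fin n) := S.filter (fun v => 16 ≤ dS G S v)

lemma avg (S : Finset (Fin n)) (hS : S.Nonempty) :
    ∃ x ∈ S, 17 * (bad G S).card ≤
      ((bad G S).filter (fun v => v = x ∨ G.Adj v x)).card * S.card := by
  apply Finset.exists_le_of_sum_le hS
  rw [Finset.sum_const, smul_eq_mul, mul_comm S.card, ← Finset.sum_mul]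
  apply Nat.mul_le_mul_right
  have h1 : ∑ x ∈ S, ((bad G S).filter (fun v => v = x ∨ G.Adj v x)).card
      = ∑ v ∈ bad G S, (S.filter (fun x => v = x ∨ G.Adj v x)).card := by
    simp only [Finset.card_filter]
    exact Finset.sum_comm
  rw [h1, mul_comm, ← smul_eq_mul, ← Finset.sum_const]
  apply Finset.sum_le_sum
  intro v hv
  have hv' := Finset.mem_filter.mp hv
  have h2 : S.filter (fun x => v = x ∨ G.Adj v x) = insert v (S.filter (fun w => G.Adj v w)) := by
    ext w
    simp only [Finset.mem_filter, Finset.mem_insert]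
    constructor
    · rintro ⟨h, h' | h'⟩
      · exact Or.inl h'.symm
      · exact Or.inr ⟨h, h'⟩
    · rintro (h | ⟨h, h'⟩)
      · exact ⟨h ▸ hv'.1, Or.inl h.symm⟩
      · exact ⟨h, Or.inr h'⟩
  rw [h2, Finset.card_insert_of_notMem (by simp)]
  have := hv'.2
  unfold dS at this
  omega

lemma bad_erase (S : Finset (Fin n)) (x : Fin n) (hx : x ∈ S) (hm : ∀ v ∈ S, dS G S v ≤ 16) :
    (bad G (S.erase x)).card + ((bad G S).filter (fun v => v = x ∨ G.Adj v x)).card
      ≤ (bad G S).card := by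
  rw [← Finset.card_filter_add_card_filter_not (s := bad G S) (fun v => v = x ∨ G.Adj v x), add_comm]
  apply Nat.add_le_add_left
  apply Finset.card_le_card
  intro v hv
  simp only [bad, Finset.mem_filter, Finset.mem_erase] at hv ⊢
  have h1 := dS_erase G S x v hx
  have h2 := hm v hv.1.2
  refine ⟨⟨hv.1.2, by omega⟩, ?_⟩
  rintro (h | h)
  · exact hv.1.1 h
  · rw [if_pos h] at h1; omega

lemma phase2 (N : ℕ) : ∀ (m : ℕ) (S : Finset (Fin n)), S.card = m → S.card ≤ N →
    (∀ v ∈ S, dS G S v ≤ 16) →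
    ∃ T : Finset (Fin n), KIndep G 15 T ∧ ∃ c : ℕ, T.card + c = S.card ∧ c ≤ (bad G S).card ∧
      34 * c ≤ 17 * (bad G S).card + N ∧ 102 * c ≤ 34 * (bad G S).card + 5 * N := by
  intro m
  induction m with
  | zero =>
    intro S h _ _
    refine ⟨∅, by intro v hv; simp at hv, 0, by simp [h], by omega, by omega, by omega⟩
  | succ m ih =>
    intro S h hN hm
    by_cases hb : (bad G S).card = 0
    · refine ⟨S, ?_, 0, by simp, by omega, by omega, by omega⟩
      intro v hv
      by_contra hc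
      have : v ∈ bad G S := by
        simp only [bad, Finset.mem_filter, dS]; exact ⟨hv, by omega⟩
      rw [Finset.card_eq_zero.mp hb] at this; simp at this
    · obtain ⟨x, hx, hj⟩ := avg G S (Finset.card_pos.mp (by omega))
      have hb2 := bad_erase G S x hx hm
      have hc : (S.erase x).card = m := by rw [Finset.card_erase_of_mem hx]; omega
      obtain ⟨T, hT, c, h1, h2, h3, h4⟩ := ih (S.erase x) hc (by omega) (by
        intro v hv
        have := dS_erase G S x v hx
        have := hm v (Finset.mem_of_mem_erase hv)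
        omega)
      generalize ((bad G S).filter (fun v => v = x ∨ G.Adj v x)).card = j at hj hb2
      refine ⟨T, hT, c + 1, by omega, ?_⟩
      rcases j with _ | _ | _ | j
      · omega
      · omega
      · omega
      · omega

lemma phase1 : ∀ (m : ℕ) (S : Finset (Fin n)), S.card = m →
    ∃ T : Finset (Fin n), KIndep G 15 T ∧ ∃ c : ℕ, T.card + c = S.card ∧
      3468 * c ≤ 97 * (∑ v ∈ S, dS G S v) + 170 * S.card := by
  intro m
  induction m with
  | zero =>
    intro S h
    refine ⟨∅, by intro v hv; simp at hv, 0, by simp [h], by omega⟩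
  | succ m ih =>
    intro S h
    by_cases hm : ∀ v ∈ S, dS G S v ≤ 16
    · obtain ⟨T, hT, c, h1, _, _, h4⟩ := phase2 G S.card _ S rfl le_rfl hm
      refine ⟨T, hT, c, h1, ?_⟩
      have h5 : 16 * (bad G S).card ≤ ∑ v ∈ S, dS G S v := by
        calc 16 * (bad G S).card = ∑ v ∈ bad G S, 16 := by simp [mul_comm]
          _ ≤ ∑ v ∈ bad G S, dS G S v :=
            Finset.sum_le_sum (fun v hv => (Finset.mem_filter.mp hv).2)
          _ ≤ ∑ v ∈ S, dS G S v := Finset.sum_le_sum_of_subset (Finset.filter_subset _ _)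
      omega
    · push Not at hm
      obtain ⟨x, hx, hd⟩ := hm
      have hc : (S.erase x).card = m := by rw [Finset.card_erase_of_mem hx]; omega
      obtain ⟨T, hT, c, h1, h2⟩ := ih (S.erase x) hc
      have := DS_erase G S x hx
      refine ⟨T, hT, c + 1, by omega, by omega⟩

lemma main (hn : 1 ≤ n) (h : avgDeg G ≤ ((15 : ℕ) : ℝ)) :
    (1843 / 3468 : ℝ) ≤ (alphaK G 15 : ℝ) / (n : ℝ) := by
  obtain ⟨T, hT, c, h1, h2⟩ := phase1 G _ Finset.univ rfl
  have hpos : (0 : ℝ) < n := by exact_mod_cast hn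
  have hd : ∑ v ∈ Finset.univ, dS G Finset.univ v = ∑ v : Fin n, G.degree v := by
    apply Finset.sum_congr rfl
    intro v _
    unfold dS
    rw [← SimpleGraph.card_neighborFinset_eq_degree]
    congr 1
    ext w; simp
  have h3 : ∑ v : Fin n, G.degree v ≤ 15 * n := by
    unfold avgDeg at h
    rw [div_le_iff₀ hpos] at h
    exact_mod_cast h
  have h4 : T.card ≤ alphaK G 15 := by
    apply le_csSup
    · refine ⟨n, ?_⟩
      rintro m ⟨S, _, rfl⟩
      simpa using Finset.card_le_univ S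
    · exact ⟨T, hT, rfl⟩
  simp only [Finset.card_univ, Fintype.card_fin] at h1 h2
  have h5 : 1843 * n ≤ 3468 * alphaK G 15 := by omega
  rw [le_div_iff₀ hpos]
  have : (1843 : ℝ) * n ≤ 3468 * (alphaK G 15 : ℝ) := by exact_mod_cast h5
  linarith

end

lemma low : (1843 / 3468 : ℝ) ≤ fkd 15 15 := by
  apply le_csInf
  · refine ⟨_, 1, le_rfl, ⊥, ?_, rfl⟩
    simp [avgDeg]
  · rintro x ⟨n, hn, G, hG, rfl⟩
    exact main G hn hG

theorem result : (1843 / 3468 : ℝ) ≤ fkd 15 15 ∧
    ¬ ∀ k d : ℕ, 2 ≤ d → d ≤ k →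
      fkd k d = (2 * (k : ℝ) + 2 - (d : ℝ)) / (2 * (k : ℝ) + 2) := by
  refine ⟨low, fun h => ?_⟩
  have h1 := h 15 15 (by norm_num) le_rfl
  have h2 := low
  rw [h1] at h2
  norm_num at h2

end Pool.Agent.Results.MP_10f18b_co.NotSharp
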